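import Pool.Agent.Helper79.KW.DI
import Pool.Agent.Helper81.KW.UL
import Pool.Agent.Helper74.KW.EX
import Pool.Agent.Helper16.KW.CO

/-!
# Assembly of the proof of MP_715b63_an
-/

open CategoryTheory Topology
open scoped ENNReal

namespace Pool.Agent.KW

universe u v

theorem main_theorem {X : Type u} [Groupoid.{u} X] [TopologicalSpace X]
    [TopologicalSpace (Arr X)] [EtaleGroupoid X]
    (h : IsExactAlg (redAlg X : Set (L2 (Arr X) →L[ℂ] L2 (Arr X)))) : KWExact.{u, v} X :=
  kwExact_of_dist fun _ _ _ ι π he f hf ρ hρ hπ δ hδ =>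
    dist_le (ula_of_exPrime (exPrime_of_exact h)) ι π he f hf ρ hρ hπ δ hδ

end Pool.Agent.KW
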