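import Pool.Agent.Helper79.KW.Defs

/-!
# Auxiliary definitions for the proof (not part of the statement)
-/

open CategoryTheory Topology
open scoped ENNReal

namespace Pool.Agent.KW

universe u v

section Top

variable {X : Type u} [Groupoid.{u} X]

/-- the arrow underlying an element of `G_x` -/
def arr {x : X} (g : Fibre x) : Arr X := ⟨x, g.1, g.2⟩

/-- the unit arrow at `x` -/
def unitArr (x : X) : Arr X := ⟨x, x, 𝟙 x⟩

/-- the inverse arrow -/
def invArr (g : Arr X) : Arr X := ⟨g.tgt, g.src, Groupoid.inv g.hom⟩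

/-- supported in an open bisection -/
def BisSupp {R : Type*} [Zero R] [TopologicalSpace X] [TopologicalSpace (Arr X)] (h : Arr X → R) :
    Prop :=
  ∃ U : Set (Arr X), IsOpen U ∧ tsupport h ⊆ U ∧ Set.InjOn Arr.src U ∧ Set.InjOn Arr.tgt U

/-- real bump functions with values in `[0,1]`, compactly supported in an open bisection -/
structure IsBump [TopologicalSpace X] [TopologicalSpace (Arr X)] (h : Arr X → ℝ) : Prop where
  cont : Continuous h
  cpt : HasCompactSupport h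
  nonneg : ∀ g, 0 ≤ h g
  le_one : ∀ g, h g ≤ 1
  bis : BisSupp h

/-- adjacency in the graph `G_x` defined by a set `K` of arrows -/
def EdgeAdj (K : Set (Arr X)) {x : X} (g g' : Fibre x) : Prop :=
  g ≠ g' ∧ (quot g g' ∈ K ∨ quot g' g ∈ K)

/-- uniform (weighted) local amenability of the graphs `G_x` -/
def ULA (X : Type u) [Groupoid.{u} X] [TopologicalSpace X] [TopologicalSpace (Arr X)] : Prop :=
  open Classical in
  ∀ (n : ℕ) (h : Fin n → Arr X → ℝ), (∀ k, IsBump (h k)) → ∀ ε > 0, ∃ S : ℕ,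
    ∀ (x : X) (F : Finset (Fibre x)), F.Nonempty → ∀ μ : Fibre x → ℝ, (∀ g, 0 < μ g) →
      ∃ E ⊆ F, E.Nonempty ∧ E.card ≤ S ∧
        ∑ g ∈ E, ∑ g' ∈ (F \ E).filter (fun g' => EdgeAdj {a | ∃ k, h k a = 1} g g'),
          min (μ g) (μ g') < ε * ∑ g ∈ E, μ g

/-- the consequence of exactness of the reduced C*-algebra that we use -/
def ExPrime (X : Type u) [Groupoid.{u} X] [TopologicalSpace X] [TopologicalSpace (Arr X)] :
    Prop :=
  ∀ (n : ℕ) (f : Fin n → Arr X → ℂ), (∀ i, IsCc (f i)) → ∀ ρ₁ ρ₂ C : ℝ, 0 ≤ ρ₁ → ρ₁ < ρ₂ →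
    ∃ W : Finset (Arr X), ∀ (H : Type u) [NormedAddCommGroup H] [InnerProductSpace ℂ H]
      [CompleteSpace H] (b : Fin n → (H →L[ℂ] H)), (∀ i, ‖b i‖ ≤ C) →
      matNorm (fun s t : W => ∑ i, regMat (f i) s t • b i) ≤ ρ₁ →
      ∀ V : Finset (Arr X), matNorm (fun s t : V => ∑ i, regMat (f i) s t • b i) ≤ ρ₂

end Top

/-- a lazy walk of length `S` -/
def ConnWithin {F : Type*} (adj : F → F → Prop) (S : ℕ) (E : Finset F) : Prop :=
  ∀ g ∈ E, ∀ g' ∈ E, ∃ p : ℕ → F, p 0 = g ∧ p S = g' ∧ (∀ i, p i ∈ E) ∧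
    ∀ i < S, p i = p (i + 1) ∨ adj (p i) (p (i + 1))

end Pool.Agent.KW
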