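import Pool.Agent.Helper79.KW.Base

/-!
# Small utilities for the proof of MP_715b63_an
-/

open CategoryTheory Topology
open scoped ENNReal

namespace Pool.Agent.KW

universe u v

section Algebra
variable {X : Type u} [Groupoid.{u} X]

theorem quot_cancel_left {x : X} {g h h' : Fibre x} (e : quot g h = quot g h') : h = h' := by
  obtain ⟨y, g⟩ := g
  obtain ⟨z, h⟩ := h
  obtain ⟨z', h'⟩ := h'
  simp only [quot] at e
  injection e with e1 e2 e3
  subst e1
  have e4 := eq_of_heq e3
  have : h = h' := by
    have h1 : Groupoid.inv h = Groupoid.inv h' := by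
      have := congrArg (fun k => k ≫ Groupoid.inv g) e4
      simpa using this
    have := congrArg Groupoid.inv h1
    simpa using this
  subst this
  rfl

theorem quot_cancel_right {x : X} {g g' h : Fibre x} (e : quot g h = quot g' h) : g = g' := by
  obtain ⟨y, g⟩ := g
  obtain ⟨y', g'⟩ := g'
  obtain ⟨z, h⟩ := h
  simp only [quot] at e
  injection e with e1 e2 e3
  subst e2
  have e4 := eq_of_heq e3
  have : g = g' := by
    have := congrArg (fun k => h ≫ k) e4
    simpa using this
  subst this
  rfl

theorem quot_src {x : X} (g h : Fibre x) : (quot g h).src = h.1 := rfl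
theorem quot_tgt {x : X} (g h : Fibre x) : (quot g h).tgt = g.1 := rfl
theorem quot_self {x : X} (g : Fibre x) : quot g g = unitArr g.1 := by
  simp [quot, unitArr]
theorem invArr_quot {x : X} (g h : Fibre x) : invArr (quot g h) = quot h g := by
  simp [quot, invArr]
theorem invArr_invArr (g : Arr X) : invArr (invArr g) = g := by
  simp [invArr]

/-- right translation by `k⁻¹` -/
def trans {x y : X} (k : x ⟶ y) (g : Fibre x) : Fibre y := ⟨g.1, Groupoid.inv k ≫ g.2⟩

theorem quot_trans {x y : X} (k : x ⟶ y) (g h : Fibre x) :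
    quot (trans k g) (trans k h) = quot g h := by
  simp [quot, trans]

theorem trans_injective {x y : X} (k : x ⟶ y) :
    Function.Injective (trans k : Fibre x → Fibre y) := by
  intro g g' e
  apply quot_cancel_right (h := g)
  rw [← quot_trans k, ← quot_trans k, e]

theorem arr_trans {x : X} (g h : Fibre x) : arr (trans h.2 g) = quot g h := rfl

theorem arr_injective {x : X} : Function.Injective (arr : Fibre x → Arr X) := by
  rintro ⟨y, g⟩ ⟨y', g'⟩ e
  simp only [arr] at e
  injection e with e1 e2 e3
  subst e2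
  cases eq_of_heq e3
  rfl

end Algebra

section Act
variable {X : Type u} [Groupoid.{u} X] [TopologicalSpace X] [TopologicalSpace (Arr X)]

theorem act_inv_act (A : GAlg.{u, v} X) {x y : X} (k : x ⟶ y) (a : A.fib x) :
    A.act (Groupoid.inv k) (A.act k a) = a := by
  rw [← A.act_comp]
  simp [A.act_id]

theorem act_act_inv (A : GAlg.{u, v} X) {x y : X} (k : x ⟶ y) (a : A.fib y) :
    A.act k (A.act (Groupoid.inv k) a) = a := by
  rw [← A.act_comp]
  simp [A.act_id]

theorem act_injective (A : GAlg.{u, v} X) {x y : X} (k : x ⟶ y) :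
    Function.Injective (A.act k) := fun a b h => by
  rw [← act_inv_act A k a, h, act_inv_act]

theorem norm_act_le (A : GAlg.{u, v} X) {x y : X} (k : x ⟶ y) (a : A.fib x) :
    ‖A.act k a‖ ≤ ‖a‖ := NonUnitalStarAlgHom.norm_apply_le _ _

theorem norm_act (A : GAlg.{u, v} X) {x y : X} (k : x ⟶ y) (a : A.fib x) :
    ‖A.act k a‖ = ‖a‖ := by
  apply le_antisymm (norm_act_le A k a)
  conv_lhs => rw [← act_inv_act A k a]
  exact norm_act_le A _ _

theorem isCc_bdd {Y : Type*} [TopologicalSpace Y] {f : Y → ℂ} (hf : IsCc f) :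
    ∃ C : ℝ, 0 ≤ C ∧ ∀ y, ‖f y‖ ≤ C := by
  obtain ⟨C, hC⟩ := hf.2.exists_bound_of_continuous hf.1
  exact ⟨max C 0, le_max_right _ _, fun y => (hC y).trans (le_max_left _ _)⟩

theorem IsBump.isCc {h : Arr X → ℝ} (hh : IsBump h) : IsCc (fun g => (h g : ℂ)) := by
  refine ⟨Complex.continuous_ofReal.comp hh.cont, ?_⟩
  exact hh.cpt.comp_left (g := fun r : ℝ => (r : ℂ)) (by simp)

/-- elements of the algebraic crossed product are finite sums of generators -/
theorem exists_rep (A : GAlg.{u, v} X) (f : MatFam A) (hf : f ∈ algCrossed A) :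
    ∃ (n : ℕ) (η : Fin n → Arr X → ℂ) (a : Fin n → ∀ x, A.fib x),
      (∀ k, IsCc (η k)) ∧ (∀ k, a k ∈ A.sec) ∧
      ∀ (x : X) (g h : Fibre x), f x g h = ∑ k, genElem A (η k) (a k) x g h := by
  unfold algCrossed at hf
  induction hf using Submodule.span_induction with
  | mem m hm =>
    obtain ⟨η, hη, a, ha, rfl⟩ := hm
    exact ⟨1, fun _ => η, fun _ => a, fun _ => hη, fun _ => ha, by simp⟩
  | zero => exact ⟨0, Fin.elim0, Fin.elim0, fun k => k.elim0, fun k => k.elim0, by simp⟩
  | add f g _ _ hf hg =>
    obtain ⟨n, η, a, h1, h2, h3⟩ := hf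
    obtain ⟨m, η', a', h1', h2', h3'⟩ := hg
    refine ⟨n + m, Fin.append η η', Fin.addCases (motive := fun _ => ∀ x, A.fib x) a a', ?_, ?_, ?_⟩
    · intro k
      refine Fin.addCases (fun i => ?_) (fun i => ?_) k
      · simpa using h1 i
      · simpa using h1' i
    · intro k
      refine Fin.addCases (fun i => ?_) (fun i => ?_) k
      · simpa using h2 i
      · simpa using h2' i
    · intro x g h
      rw [Fin.sum_univ_add]
      simp only [Fin.append_left, Fin.append_right, Fin.addCases_left, Fin.addCases_right]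
      rw [← h3, ← h3']
      rfl
  | smul c f _ hf =>
    obtain ⟨n, η, a, h1, h2, h3⟩ := hf
    refine ⟨n, η, fun k x => c • a k x, h1, fun k => A.smul_mem c _ (h2 k), ?_⟩
    intro x g h
    change c • f x g h = _
    rw [h3, Finset.smul_sum]
    refine Finset.sum_congr rfl fun k _ => ?_
    simp only [genElem]
    rw [smul_comm (η k (quot g h)) c, map_smul (A.act (Groupoid.inv g.2)) c]

end Act

end Pool.Agent.KW
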