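import Pool.Agent.Helper79.KW.Statement
import Pool.Agent.Helper79.KW.Assembly
import Pool.Agent.Helper79.KW.Util

/-!
# From the working definitions to the definitions of the statement
-/

open CategoryTheory Topology
open Pool.Agent.KW

namespace Pool.Agent.GroupoidExact

universe u v w

section Hom

variable {B C : Type*} [NonUnitalCStarAlgebra B] [NonUnitalCStarAlgebra C]

/-- the bundled form of a *-homomorphism -/
def IsStarHom.toHom {f : B → C} (h : IsStarHom f) : B →⋆ₙₐ[ℂ] C where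
  toFun := f
  map_smul' := h.map_smul
  map_zero' := by
    have := h.map_smul 0 0
    simpa using this
  map_add' := h.map_add
  map_mul' := h.map_mul
  map_star' := h.map_star

theorem isStarHom_of (f : B →⋆ₙₐ[ℂ] C) : IsStarHom f where
  map_smul := map_smul f
  map_add := map_add f
  map_mul := map_mul f
  map_star := map_star f

end Hom

section Exactness

variable {S : Type w} {H : Type v} [NormedAddCommGroup H] [InnerProductSpace ℂ H]
  [CompleteSpace H]

open Classical in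
theorem coef_conj (δ : HilbertBasis S ℂ H) (T : H →L[ℂ] H) (s t : S) :
    KW.coef (δ.repr.conjStarAlgEquiv T) s t = coef δ T s t := by
  unfold KW.coef coef
  rw [LinearIsometryEquiv.conjStarAlgEquiv_apply_apply, HilbertBasis.repr_symm_single,
    HilbertBasis.repr_apply_apply]

theorem exact_conj (δ : HilbertBasis S ℂ H) (D : Set (H →L[ℂ] H)) (h : IsExactAlg δ D) :
    KW.IsExactAlg (δ.repr.conjStarAlgEquiv '' D) := by
  have key : ∀ (B : Type w) [NonUnitalCStarAlgebra B],
      KW.minTensor (δ.repr.conjStarAlgEquiv '' D) B = minTensor δ D B := by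
    intro B _
    have h1 : KW.algTensor (δ.repr.conjStarAlgEquiv '' D) B = algTensor δ D B := by
      unfold KW.algTensor algTensor
      congr 1
      ext m
      constructor
      · rintro ⟨_, ⟨d, hd, rfl⟩, b, rfl⟩
        refine ⟨d, hd, b, ?_⟩
        funext s t
        simp only [KW.elemTensor, elemTensor, coef_conj]
      · rintro ⟨d, hd, b, rfl⟩
        refine ⟨_, ⟨d, hd, rfl⟩, b, ?_⟩
        funext s t
        simp only [KW.elemTensor, elemTensor, coef_conj]
    unfold KW.minTensor minTensor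
    rw [h1]
  intro J B C _ _ _ i q hiq
  rw [key, key, key]
  exact h J B C i q ⟨isStarHom_of i, isStarHom_of q, hiq.1, hiq.2.1, hiq.2.2⟩

end Exactness

section Red

variable {X : Type u} [Groupoid.{u} X] [TopologicalSpace (Arr X)]
  {H : Type v} [NormedAddCommGroup H] [InnerProductSpace ℂ H] [CompleteSpace H]

theorem redAlg_conj (δ : HilbertBasis (Arr X) ℂ H) :
    δ.repr.conjStarAlgEquiv '' (redAlg δ : Set (H →L[ℂ] H)) =
      (KW.redAlg X : Set (L2 (Arr X) →L[ℂ] L2 (Arr X))) := by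
  have hiso : Isometry (δ.repr.conjStarAlgEquiv : (H →L[ℂ] H) → _) :=
    NonUnitalStarAlgHom.isometry _ δ.repr.conjStarAlgEquiv.injective
  have hcl : IsClosedMap (δ.repr.conjStarAlgEquiv : (H →L[ℂ] H) → _) :=
    hiso.isClosedEmbedding.isClosedMap
  let φ : (H →L[ℂ] H) →⋆ₙₐ[ℂ] (L2 (Arr X) →L[ℂ] L2 (Arr X)) :=
    { toFun := δ.repr.conjStarAlgEquiv
      map_smul' := fun c x => map_smul δ.repr.conjStarAlgEquiv c x
      map_zero' := map_zero δ.repr.conjStarAlgEquiv
      map_add' := fun x y => map_add δ.repr.conjStarAlgEquiv x y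
      map_mul' := fun x y => map_mul δ.repr.conjStarAlgEquiv x y
      map_star' := fun x => map_star δ.repr.conjStarAlgEquiv x }
  have hφ : ∀ x, φ x = δ.repr.conjStarAlgEquiv x := fun _ => rfl
  have h1 := NonUnitalStarSubalgebra.topologicalClosure_map
    (NonUnitalStarAlgebra.adjoin ℂ {T : H →L[ℂ] H |
      ∃ f : Arr X → ℂ, IsCc f ∧ ∀ s t, coef δ T s t = regMat f s t})
    (φ := φ) hcl hiso.continuous
  have h2 := NonUnitalStarAlgHom.map_adjoin φ
    {T : H →L[ℂ] H | ∃ f : Arr X → ℂ, IsCc f ∧ ∀ s t, coef δ T s t = regMat f s t}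
  have h3 : φ '' {T : H →L[ℂ] H | ∃ f : Arr X → ℂ, IsCc f ∧ ∀ s t, coef δ T s t = regMat f s t}
      = {T | ∃ f : Arr X → ℂ, IsCc f ∧ ∀ s t, KW.coef T s t = regMat f s t} := by
    ext T
    constructor
    · rintro ⟨T, ⟨f, hf, hT⟩, rfl⟩
      refine ⟨f, hf, fun s t => ?_⟩
      rw [hφ, coef_conj, hT]
    · rintro ⟨f, hf, hT⟩
      obtain ⟨T', rfl⟩ := δ.repr.conjStarAlgEquiv.surjective T
      refine ⟨T', ⟨f, hf, fun s t => ?_⟩, rfl⟩
      rw [← coef_conj]
      exact hT s t
  have h4 : NonUnitalStarSubalgebra.map φ (redAlg δ) = KW.redAlg X := by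
    unfold redAlg KW.redAlg
    rw [← h1, h2, h3]
  rw [← h4]
  rfl

end Red

section KWE

variable {X : Type u} [Groupoid.{u} X] [TopologicalSpace X] [TopologicalSpace (Arr X)]

/-- the bundled form of a `G`-C*-algebra -/
def GAlg.toOld {A : X → Type v} [inst : ∀ x, NonUnitalCStarAlgebra (A x)] (𝒜 : GAlg A) :
    KW.GAlg.{u, v} X where
  fib := A
  alg := inst
  sec := 𝒜.sec
  zero_mem := 𝒜.isC0Algebra.alg.zero_mem
  add_mem := 𝒜.isC0Algebra.alg.add_mem
  smul_mem := 𝒜.isC0Algebra.alg.smul_mem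
  mul_mem := 𝒜.isC0Algebra.alg.mul_mem
  star_mem := 𝒜.isC0Algebra.alg.star_mem
  cc_smul_mem := 𝒜.isC0Algebra.alg.cc_smul_mem
  full := 𝒜.isC0Algebra.full
  vanish := 𝒜.isC0Algebra.vanish
  complete := 𝒜.isC0Algebra.complete
  act := fun g => (𝒜.act_hom g).toHom
  act_id := 𝒜.act_id
  act_comp := 𝒜.act_comp
  act_cont := 𝒜.act_cont

/-- the bundled form of an equivariant *-homomorphism -/
def IsGHom.toOld {A B : X → Type v} [∀ x, NonUnitalCStarAlgebra (A x)]
    [∀ x, NonUnitalCStarAlgebra (B x)] {𝒜 : GAlg A} {ℬ : GAlg B} {φ : ∀ x, A x → B x}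
    (h : IsGHom 𝒜 ℬ φ) : KW.GHom 𝒜.toOld ℬ.toOld where
  app := fun x => (h.hom x).toHom
  map_sec := h.map_sec
  equivariant := h.equivariant

theorem regRep_eq {A : X → Type v} [∀ x, NonUnitalCStarAlgebra (A x)] (𝒜 : GAlg A) {n : ℕ}
    (η : Fin n → Arr X → ℂ) (a : Fin n → ∀ x, A x) (x : X) (g h : Fibre x) :
    regRep 𝒜 η a x g h = ∑ k, KW.genElem 𝒜.toOld (η k) (a k) x g h := by
  have h1 : regRep 𝒜 η a x g h =
      (𝒜.act_hom (Groupoid.inv g.2)).toHom (∑ k, η k (quot g h) • a k g.1) := rfl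
  rw [h1, map_sum]
  rfl

theorem crossed_eq {A : X → Type v} [∀ x, NonUnitalCStarAlgebra (A x)] (𝒜 : GAlg A) :
    KW.crossed 𝒜.toOld = (crossed 𝒜 : Set (MatFam A)) := by
  ext m
  constructor
  · intro hm ε hε
    obtain ⟨z, hz, hmz⟩ := hm ε hε
    obtain ⟨n, η, a, h1, h2, h3⟩ := KW.exists_rep 𝒜.toOld z hz
    refine ⟨n, η, a, h1, h2, ?_⟩
    have hz' : (regRep 𝒜 η a : MatFam A) = z := by
      funext x g h
      rw [regRep_eq]
      exact (h3 x g h).symm
    rw [hz']
    exact hmz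
  · intro hm ε hε
    obtain ⟨n, η, a, h1, h2, h3⟩ := hm ε hε
    have hz' : (regRep 𝒜 η a : MatFam A) =
        (∑ k, KW.genElem 𝒜.toOld (η k) (a k) : KW.MatFam 𝒜.toOld) := by
      funext x g h
      refine (regRep_eq 𝒜 η a x g h).trans ?_
      simp only [Finset.sum_apply]
    rw [hz'] at h3
    refine ⟨∑ k, KW.genElem 𝒜.toOld (η k) (a k), ?_, h3⟩
    exact Submodule.sum_mem _ fun k _ => Submodule.subset_span ⟨η k, h1 k, a k, h2 k, rfl⟩

theorem kwExact_of_old (h : KW.KWExact.{u, v} X) : KWExact.{u, v} X := by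
  intro I A B _ _ _ ℐ 𝒜 ℬ ι π hex
  have h1 := h ℐ.toOld 𝒜.toOld ℬ.toOld hex.hom_left.toOld hex.hom_right.toOld hex.exact
  rw [crossed_eq, crossed_eq, crossed_eq] at h1
  exact h1

end KWE

/-- the main theorem, in terms of the definitions of `Statement.lean` -/
theorem main_statement (X : Type u) [Groupoid.{u} X] [TopologicalSpace X]
    [TopologicalSpace (Arr X)] [EtaleGroupoid X]
    (H : Type w) [NormedAddCommGroup H] [InnerProductSpace ℂ H] [CompleteSpace H]
    (δ : HilbertBasis (Arr X) ℂ H) (h : IsExactAlg δ (redAlg δ : Set (H →L[ℂ] H))) :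
    KWExact.{u, v} X := by
  apply kwExact_of_old
  apply KW.main_theorem
  rw [← redAlg_conj δ]
  exact exact_conj δ _ h

end Pool.Agent.GroupoidExact
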