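import Mathlib

/-!
# Étale groupoids: basic definitions for MP_715b63_an
-/

open CategoryTheory Topology
open scoped ENNReal

namespace Pool.Agent.KW

universe u v w

/-! ## Norm of a finite matrix over a C*-algebra -/

section MatNorm

variable {n A : Type*} [Fintype n] [NonUnitalCStarAlgebra A]

/-- The C*-norm of a finite square matrix over a C*-algebra `A`: the norm of the C*-algebra
`M_n(A)`, which Mathlib calls `CStarMatrix n n A`.  (Mathlib asks for an order on `A` in order to
define the norm; we use the canonical one, in which the nonnegative elements are the selfadjoint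
elements with nonnegative spectrum.) -/
noncomputable def matNorm (M : n → n → A) : ℝ :=
  letI := CStarAlgebra.spectralOrder A
  letI := CStarAlgebra.spectralOrderedRing A
  ‖(CStarMatrix.ofMatrix M : CStarMatrix n n A)‖

end MatNorm

/-- All finite square submatrices of the infinite matrix `m` over the C*-algebra `B` have norm at
most `ρ`; that is, `m` is a bounded matrix of norm at most `ρ`. -/
def MatLE {S B : Type*} [NonUnitalCStarAlgebra B] (m : S → S → B) (ρ : ℝ) : Prop :=
  ∀ F : Finset S, matNorm (fun i j : F => m i j) ≤ ρ

/-! ## Short exact sequences -/

/-- Exactness of the sequence `0 → P → Q → R → 0`, where `P`, `Q`, `R` are subsets of the additive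
groups `M`, `N`, `K`, the first map is the restriction of `f` and the second one the restriction
of `g`. -/
def ShortExact {M N K : Type*} [Zero K] (P : Set M) (Q : Set N) (R : Set K)
    (f : M → N) (g : N → K) : Prop :=
  Set.MapsTo f P Q ∧ Set.MapsTo g Q R ∧ Set.InjOn f P ∧ Set.SurjOn g Q R ∧
    ∀ z ∈ Q, (g z = 0 ↔ z ∈ f '' P)

/-! ## Étale groupoids -/

/-- The set of all arrows of a groupoid with unit space `X`. -/
structure Arr (X : Type u) [Groupoid.{u} X] where
  /-- the source of the arrow -/
  src : X
  /-- the range of the arrow -/
  tgt : X
  /-- the arrow -/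
  hom : src ⟶ tgt

/-- The set of all composable pairs of arrows. -/
structure ComposablePair (X : Type u) [Groupoid.{u} X] where
  /-- the source of the first arrow -/
  x : X
  /-- the range of the first arrow and the source of the second arrow -/
  y : X
  /-- the range of the second arrow -/
  z : X
  /-- the first arrow -/
  f : x ⟶ y
  /-- the second arrow -/
  g : y ⟶ z

section Top

variable {X : Type u} [Groupoid.{u} X]

/-- The two arrows of a composable pair. -/
def ComposablePair.toProd (c : ComposablePair X) : Arr X × Arr X :=
  (⟨c.x, c.y, c.f⟩, ⟨c.y, c.z, c.g⟩)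

/-- The composite of a composable pair. -/
def ComposablePair.comp (c : ComposablePair X) : Arr X :=
  ⟨c.x, c.z, c.f ≫ c.g⟩

/-- The set of composable pairs has the topology of a subspace of `G × G`. -/
instance [TopologicalSpace (Arr X)] : TopologicalSpace (ComposablePair X) :=
  TopologicalSpace.induced ComposablePair.toProd inferInstance

/-- An étale groupoid: a locally compact Hausdorff topological groupoid whose range and source
maps are local homeomorphisms.  `X` is the unit space and `Arr X` is the space of arrows. -/
class EtaleGroupoid (X : Type u) [Groupoid.{u} X] [TopologicalSpace X]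
    [TopologicalSpace (Arr X)] : Prop where
  /-- the space of arrows is Hausdorff -/
  t2 : T2Space (Arr X)
  /-- the space of arrows is locally compact -/
  locallyCompact : LocallyCompactSpace (Arr X)
  /-- the source map is a local homeomorphism -/
  src_homeo : IsLocalHomeomorph (Arr.src : Arr X → X)
  /-- the range map is a local homeomorphism -/
  tgt_homeo : IsLocalHomeomorph (Arr.tgt : Arr X → X)
  /-- the inclusion of the unit space is continuous -/
  unit_cont : Continuous (fun x : X => (⟨x, x, 𝟙 x⟩ : Arr X))
  /-- inversion is continuous -/
  inv_cont : Continuous (fun g : Arr X => (⟨g.tgt, g.src, Groupoid.inv g.hom⟩ : Arr X))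
  /-- composition is continuous -/
  comp_cont : Continuous (ComposablePair.comp : ComposablePair X → Arr X)

/-- Compactly supported continuous functions. -/
def IsCc {Y : Type*} [TopologicalSpace Y] (f : Y → ℂ) : Prop :=
  Continuous f ∧ HasCompactSupport f

/-- The matrix of the regular representation: the entry at `(s, t)` is `f (s t⁻¹)` when `s` and
`t` have the same source, and zero otherwise. -/
noncomputable def regMat (f : Arr X → ℂ) (s t : Arr X) : ℂ :=
  open Classical in
  if h : t.src = s.src then
    f ⟨t.tgt, s.tgt, Groupoid.inv t.hom ≫ eqToHom h ≫ s.hom⟩ else 0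

/-- The set `G_x` of all arrows with source `x`. -/
abbrev Fibre (x : X) := Σ y, (x ⟶ y)

/-- The arrow `g h⁻¹`, for two arrows `g`, `h` with source `x`. -/
def quot {x : X} (g h : Fibre x) : Arr X :=
  ⟨h.1, g.1, Groupoid.inv h.2 ≫ g.2⟩

end Top

end Pool.Agent.KW
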