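import Pool.Agent.Helper79.KW.Util
import Pool.Agent.Helper67.KW.MN1
import Pool.Agent.Helper59.KW.TA2
import Pool.Agent.Helper98.KW.TB
import Pool.Agent.Helper97.KW.SE1
import Pool.Agent.Helper44.KW.ID
import Pool.Agent.Helper28.KW.PT3
import Pool.Agent.Helper15.KW.PA

/-!
# The distance estimate
-/

open CategoryTheory Topology
open scoped ENNReal

namespace Pool.Agent.KW

universe u v

section Main
variable {X : Type u} [Groupoid.{u} X] [TopologicalSpace X] [TopologicalSpace (Arr X)]

namespace DI

/-- representation with bisection supports -/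
theorem exists_rep_bis [EtaleGroupoid X] (A : GAlg.{u, v} X) (f : MatFam A)
    (hf : f ∈ algCrossed A) :
    ∃ (n : ℕ) (η : Fin n → Arr X → ℂ) (a : Fin n → ∀ x, A.fib x),
      (∀ k, IsCc (η k)) ∧ (∀ k, BisSupp (η k)) ∧ (∀ k, a k ∈ A.sec) ∧
      ∀ (x : X) (g h : Fibre x), f x g h = ∑ k, genElem A (η k) (a k) x g h := by
  obtain ⟨n, η, a, h1, h2, h3⟩ := exists_rep A f hf
  choose r ξ hξ hsum using fun k => exists_bisection_decomp (η k) (h1 k)
  -- reindex the sigma type
  let κ := Σ k : Fin n, Fin (r k)
  let e : Fin (Fintype.card κ) ≃ κ := (Fintype.equivFin κ).symm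
  refine ⟨Fintype.card κ, fun i => ξ (e i).1 (e i).2, fun i => a (e i).1, ?_, ?_, ?_, ?_⟩
  · exact fun i => (hξ _ _).1
  · exact fun i => (hξ _ _).2
  · exact fun i => h2 _
  · intro x g h
    rw [h3]
    rw [Equiv.sum_comp e (fun p : κ => genElem A (ξ p.1 p.2) (a p.1) x g h), Fintype.sum_sigma]
    refine Finset.sum_congr rfl fun k _ => ?_
    simp only [genElem]
    rw [hsum k, Finset.sum_smul, map_sum]

/-- the cut-down matrix `f (1 - e)` -/
noncomputable def cut {I A : GAlg.{u, v} X} (ι : GHom I A) (f : MatFam A) (b : ∀ x, I.fib x) :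
    MatFam A :=
  fun x g k => f x g k -
    f x g k * ι.app x (I.act (Groupoid.inv k.2) (star (b k.1) * b k.1))

theorem cut_trans [EtaleGroupoid X] {I A : GAlg.{u, v} X} (ι : GHom I A) (f : MatFam A)
    (hf : f ∈ algCrossed A) (b : ∀ x, I.fib x) {x y : X} (k : x ⟶ y) (g h : Fibre x) :
    cut ι f b y (trans k g) (trans k h) = A.act k (cut ι f b x g h) := by
  have h1 := equivariant_of_mem A f hf k g h
  have h2 : f y (trans k g) (trans k h) = A.act k (f x g h) := h1
  unfold cut
  rw [h2, map_sub, map_mul (A.act k), ← ι.equivariant k, ← I.act_comp]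
  congr 4
  simp [trans] <;> rfl

/-- translation of patches -/
theorem matNorm_cut_le [EtaleGroupoid X] {I A : GAlg.{u, v} X} (ι : GHom I A) (f : MatFam A)
    (hf : f ∈ algCrossed A) (b : ∀ x, I.fib x) (L : Set (Arr X)) (ρ : ℝ)
    (hb : ∀ (x : X) (F : Finset (Fibre x)), (∀ g ∈ F, arr g ∈ L) →
      matNorm (fun g k : F => cut ι f b x g k) ≤ ρ) {x : X} {κ : Type*} [Fintype κ]
    (p : κ → Fibre x) (hp : Function.Injective p) (i0 : κ) (hL : ∀ i, quot (p i) (p i0) ∈ L) :
    matNorm (fun i j : κ => cut ι f b x (p i) (p j)) ≤ ρ := by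
  classical
  set k := (p i0).2 with hk
  let F : Finset (Fibre (p i0).1) := Finset.univ.image fun i => trans k (p i)
  have hF : ∀ g ∈ F, arr g ∈ L := by
    intro g hg
    obtain ⟨i, -, rfl⟩ := Finset.mem_image.mp hg
    exact hL i
  have h1 := hb _ F hF
  let q : κ → F := fun i => ⟨trans k (p i), Finset.mem_image_of_mem _ (Finset.mem_univ i)⟩
  have hq : Function.Injective q := by
    intro i j hij
    have := congrArg Subtype.val hij
    exact hp (trans_injective k this)
  have h2 := matNorm_submatrix_le q hq (fun g k' : F => cut ι f b _ (g : Fibre (p i0).1) (k' : Fibre (p i0).1))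
  have h3 := matNorm_map_of_injective (A.act k) (act_injective A k)
    (fun i j : κ => cut ι f b x (p i) (p j))
  rw [← h3]
  refine le_trans (le_of_eq ?_) (h2.trans h1)
  congr 1
  funext i j
  exact (cut_trans ι f hf b k (p i) (p j)).symm

end DI

open Classical in
theorem dist_le [EtaleGroupoid X] (hU : ULA X) {I A B : GAlg.{u, v} X} (ι : GHom I A)
    (π : GHom A B) (h : GShortExact ι π) (f : MatFam A) (hf : f ∈ algCrossed A) (ρ : ℝ)
    (hρ : 0 < ρ) (hπ : FamLE (π.onCrossed f) ρ) (δ : ℝ) (hδ : 0 < δ) :
    ∃ z ∈ algCrossed I, FamLE (f - ι.onCrossed z) (ρ + δ) := by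
  obtain ⟨n, η, a, hη, hbis, ha, hrep⟩ := DI.exists_rep_bis A f hf
  choose U hUo hUs hUsrc hUtgt using hbis
  choose hb hbump hb1 hbU using fun k => exists_bump_eq_one (tsupport (η k)) (hη k).2 (U k)
    (hUo k) (hUs k) (hUsrc k) (hUtgt k)
  set K : Set (Arr X) := {a | ∃ k, hb k a = 1} with hK
  have hKc : IsCompact K := by
    have : K = ⋃ k, {a | hb k a = 1} := by ext; simp [hK]
    rw [this]
    refine isCompact_iUnion fun k => ?_
    refine (hbump k).cpt.isCompact.of_isClosed_subset
      (isClosed_eq (hbump k).cont continuous_const) ?_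
    intro g hg
    apply subset_tsupport
    have hg' : hb k g = 1 := hg
    simp [hg']
  have hsc : Continuous (Arr.src : Arr X → X) := EtaleGroupoid.src_homeo.continuous
  have htc : Continuous (Arr.tgt : Arr X → X) := EtaleGroupoid.tgt_homeo.continuous
  set Q : Set X := Arr.tgt '' K ∪ Arr.src '' K with hQ
  have hQc : IsCompact Q := (hKc.image htc).union (hKc.image hsc)
  -- bounds
  choose Cη hCη0 hCη using fun k => isCc_bdd (hη k)
  choose R hR0 hR using fun k => sec_bdd A (a k) (ha k)
  set C : ℝ := ∑ k, Cη k * R k with hC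
  have hC0 : 0 ≤ C := Finset.sum_nonneg fun k _ => mul_nonneg (hCη0 k) (hR0 k).le
  have hgen : ∀ k (x : X) (g g' : Fibre x), ‖genElem A (η k) (a k) x g g'‖ ≤ C := by
    intro k x g g'
    unfold genElem
    rw [norm_act, norm_smul]
    refine (mul_le_mul (hCη k _) (hR k _) (norm_nonneg _) (hCη0 k)).trans ?_
    exact Finset.single_le_sum (f := fun k => Cη k * R k)
      (fun k _ => mul_nonneg (hCη0 k) (hR0 k).le) (Finset.mem_univ k)
  set ε : ℝ := δ / (2 * (3 * n * (2 * C) + 1)) with hε
  have hden : 0 < 2 * (3 * n * (2 * C) + 1) := by positivity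
  have hε0 : 0 < ε := by positivity
  have hεn : 3 * ε * n * (2 * C) ≤ δ / 2 := by
    rw [hε]
    have : 3 * (δ / (2 * (3 * ↑n * (2 * C) + 1))) * ↑n * (2 * C)
        = δ / 2 * ((3 * n * (2 * C)) / (3 * n * (2 * C) + 1)) := by
      field_simp
    rw [this]
    have h1 : (3 * n * (2 * C)) / (3 * n * (2 * C) + 1) ≤ 1 := by
      rw [div_le_one (by positivity)]
      linarith
    nlinarith [hδ]
  obtain ⟨S, hS⟩ := hU n hb hbump ε hε0
  obtain ⟨L, hLc, hL⟩ := exists_compact_walk K hKc Q hQc S
  obtain ⟨b, hbI, hb1', hbL⟩ := exists_patch_bound ι π h f hf ρ hρ hπ L hLc (δ / 2) (by positivity)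
  have heI : (fun x => star (b x) * b x) ∈ I.sec := I.mul_mem _ (I.star_mem _ hbI) _ hbI
  obtain ⟨z, hz, hz1⟩ := exists_mul_right ι π h f hf _ heI
  refine ⟨z, hz, ?_⟩
  intro x F
  -- the pieces
  let T : Fin n → F → F → A.fib x := fun k g g' => DI.cut ι (genElem A (η k) (a k)) b x g g'
  have hsumT : ∀ g g' : F, (f - ι.onCrossed z) x g g' = ∑ k, T k g g' := by
    intro g g'
    change f x g g' - ι.app x (z x g g') = _
    rw [hz1]
    simp only [T, DI.cut]
    rw [Finset.sum_sub_distrib, ← Finset.sum_mul, ← hrep]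
  have hcutf : ∀ g g' : Fibre x, DI.cut ι f b x g g' = ∑ k, DI.cut ι (genElem A (η k) (a k)) b x g g' := by
    intro g g'
    simp only [DI.cut]
    rw [Finset.sum_sub_distrib, ← Finset.sum_mul, ← hrep]
  have hTne : ∀ k (g g' : Fibre x), DI.cut ι (genElem A (η k) (a k)) b x g g' ≠ 0 →
      η k (quot g g') ≠ 0 := by
    intro k g g' hne h0
    apply hne
    simp [DI.cut, genElem, h0]
  have hmain := matNorm_le_of_ula (F := F) (fun g g' => EdgeAdj K (g : Fibre x) g')
    (fun a b hab => ⟨hab.1.symm, hab.2.symm⟩) (fun a ha => ha.1 rfl) S ε hε0 ?_ n T (2 * C)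
    (by positivity) ?_ ?_ ?_ ?_ (ρ + δ / 2) (by positivity) ?_
  · have : (fun i j : F => (f - ι.onCrossed z) x i j) = fun i j => ∑ k, T k i j := by
      funext i j
      exact hsumT i j
    rw [this]
    refine hmain.trans ?_
    linarith
  · -- ULA
    intro F' hF' μ hμ
    obtain ⟨E, hEF, hEne, hEc, hE⟩ := hS x (F'.map (Function.Embedding.subtype _))
      (by simpa using hF') (fun g => if hg : g ∈ F then μ ⟨g, hg⟩ else 1)
      (fun g => by split_ifs <;> [exact hμ _; exact one_pos])
    refine ⟨E.subtype (fun g => g ∈ F), ?_, ?_, ?_, ?_⟩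
    · intro g hg
      have h1 : (g : Fibre x) ∈ E := by simpa using hg
      have h2 := hEF h1
      simp only [Finset.mem_map, Function.Embedding.subtype_apply] at h2
      obtain ⟨g', hg', e⟩ := h2
      have : g' = g := Subtype.ext e
      rwa [← this]
    · obtain ⟨g, hg⟩ := hEne
      have h2 := hEF hg
      simp only [Finset.mem_map, Function.Embedding.subtype_apply] at h2
      obtain ⟨g', hg', e⟩ := h2
      exact ⟨g', by simp [e, hg]⟩
    · refine le_trans ?_ hEc
      rw [Finset.card_subtype]
      exact Finset.card_filter_le _ _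
    · have hEF' : ∀ g ∈ E, g ∈ F := by
        intro g hg
        have h2 := hEF hg
        simp only [Finset.mem_map, Function.Embedding.subtype_apply] at h2
        obtain ⟨g', hg', e⟩ := h2
        rw [← e]
        exact g'.2
      have hEmap : E = (E.subtype (fun g => g ∈ F)).map (Function.Embedding.subtype _) := by
        ext g
        simp only [Finset.mem_map, Finset.mem_subtype, Function.Embedding.subtype_apply]
        constructor
        · intro hg
          exact ⟨⟨g, hEF' g hg⟩, hg, rfl⟩
        · rintro ⟨g', hg', rfl⟩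
          exact hg'
      set E' := E.subtype (fun g => g ∈ F) with hE'
      have hdiff : F'.map (Function.Embedding.subtype _) \ E
          = (F' \ E').map (Function.Embedding.subtype _) := by
        rw [hEmap, ← Finset.map_sdiff]
      have h3 : ∑ g ∈ E, (if hg : g ∈ F then μ ⟨g, hg⟩ else 1) = ∑ g ∈ E', μ g := by
        conv_lhs => rw [hEmap]
        rw [Finset.sum_map]
        refine Finset.sum_congr rfl fun g _ => ?_
        simp
      rw [h3] at hE
      refine lt_of_le_of_lt (le_of_eq ?_) hE
      rw [hdiff]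
      conv_rhs => rw [hEmap]
      rw [Finset.sum_map]
      refine Finset.sum_congr rfl fun g _ => ?_
      rw [Finset.filter_map, Finset.sum_map]
      refine Finset.sum_congr ?_ fun g' _ => ?_
      · ext g'
        simp only [Finset.mem_filter, Finset.mem_sdiff]
        rfl
      · simp
  · intro k i j j' h1 h2
    have e1 := subset_tsupport _ (hTne k i j h1)
    have e2 := subset_tsupport _ (hTne k i j' h2)
    have e3 : quot (i : Fibre x) j = quot (i : Fibre x) j' :=
      hUtgt k (hUs k e1) (hUs k e2) rfl
    exact Subtype.ext (quot_cancel_left e3)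
  · intro k i i' j h1 h2
    have e1 := subset_tsupport _ (hTne k i j h1)
    have e2 := subset_tsupport _ (hTne k i' j h2)
    have e3 : quot (i : Fibre x) j = quot (i' : Fibre x) j :=
      hUsrc k (hUs k e1) (hUs k e2) rfl
    exact Subtype.ext (quot_cancel_right e3)
  · intro k i j h1
    by_cases hij : i = j
    · exact Or.inl hij
    · refine Or.inr ⟨fun e => hij (Subtype.ext e), Or.inl ⟨k, ?_⟩⟩
      exact hb1 k _ (subset_tsupport _ (hTne k i j h1))
  · intro k i j
    have h1 : ‖star (b (j : Fibre x).1) * b (j : Fibre x).1‖ ≤ 1 := by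
      rw [CStarRing.norm_star_mul_self]
      have := hb1' (j : Fibre x).1
      nlinarith [norm_nonneg (b (j : Fibre x).1)]
    have h2 : ‖ι.app x (I.act (Groupoid.inv (j : Fibre x).2)
        (star (b (j : Fibre x).1) * b (j : Fibre x).1))‖ ≤ 1 :=
      ((NonUnitalStarAlgHom.norm_apply_le _ _).trans (norm_act_le I _ _)).trans h1
    have h3 := hgen k x i j
    calc ‖T k i j‖ ≤ ‖genElem A (η k) (a k) x i j‖ + ‖genElem A (η k) (a k) x i j *
            ι.app x (I.act (Groupoid.inv (j : Fibre x).2)
              (star (b (j : Fibre x).1) * b (j : Fibre x).1))‖ := norm_sub_le _ _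
      _ ≤ C + C * 1 := by
        refine add_le_add h3 ((norm_mul_le _ _).trans ?_)
        exact mul_le_mul h3 h2 (norm_nonneg _) hC0
      _ = 2 * C := by ring
  · intro E hE hEc hEconn
    obtain ⟨g0, hg0⟩ := hE
    have hTf : (fun i j : E => ∑ k, T k i j)
        = fun i j : E => DI.cut ι f b x ((i : F) : Fibre x) ((j : F) : Fibre x) := by
      funext i j
      rw [hcutf]
    rw [hTf]
    by_cases hq : (g0 : Fibre x).1 ∈ Q
    · refine DI.matNorm_cut_le ι f hf b L (ρ + δ / 2) hbL
        (fun i : E => ((i : F) : Fibre x)) ?_ ⟨g0, hg0⟩ ?_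
      · intro i j hij
        exact Subtype.ext (Subtype.ext hij)
      · intro i
        obtain ⟨p, hp0, hpS, -, hp⟩ := hEconn g0 hg0 i i.2
        have h1 := hL x (fun m => (p m : Fibre x)) (by simpa [hp0] using hq) (by
          intro m hm
          rcases hp m hm with e | e
          · exact Or.inl (by rw [e])
          · exact Or.inr e)
        simp only [hp0, hpS] at h1
        exact h1
    · -- the patch is a singleton and the entry vanishes
      have hnadj : ∀ g : F, ¬ EdgeAdj K (g0 : Fibre x) g := by
        intro g hg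
        rcases hg.2 with e | e
        · exact hq (Or.inl ⟨_, e, rfl⟩)
        · exact hq (Or.inr ⟨_, e, rfl⟩)
      have hall : ∀ g ∈ E, g = g0 := by
        intro g hg
        obtain ⟨p, hp0, hpS, -, hp⟩ := hEconn g0 hg0 g hg
        have : ∀ m ≤ S, p m = g0 := by
          intro m
          induction m with
          | zero => exact fun _ => hp0
          | succ m ih =>
            intro hm
            have h1 := ih (by omega)
            rcases hp m (by omega) with e | e
            · rw [← e, h1]
            · rw [h1] at e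
              exact absurd e (hnadj _)
        rw [← hpS]
        exact this S le_rfl
      have hzero : f x g0 g0 = 0 := by
        rw [hrep]
        refine Finset.sum_eq_zero fun k _ => ?_
        have : η k (quot (g0 : Fibre x) g0) = 0 := by
          by_contra hne
          have h1 := hb1 k _ (subset_tsupport _ hne)
          exact hq (Or.inl ⟨_, ⟨k, h1⟩, rfl⟩)
        simp [genElem, this]
      have : (fun i j : E => DI.cut ι f b x ((i : F) : Fibre x) ((j : F) : Fibre x))
          = fun _ _ => 0 := by
        funext i j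
        rw [hall i i.2, hall j j.2]
        simp [DI.cut, hzero]
      rw [this, matNorm_zero]
      positivity

end Main
end Pool.Agent.KW
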