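import Pool.Agent.Helper79.KW.Core

/-!
# Working definitions for the proof of MP_715b63_an

(The statement of the result uses the definitions in `Statement.lean`.)
-/

open CategoryTheory Topology
open scoped ENNReal

namespace Pool.Agent.KW

universe u v w

/-- The short exact sequence `0 → J → B → C → 0` of C*-algebras. -/
def CStarShortExact {J B C : Type*} [NonUnitalCStarAlgebra J] [NonUnitalCStarAlgebra B]
    [NonUnitalCStarAlgebra C] (i : J →⋆ₙₐ[ℂ] B) (q : B →⋆ₙₐ[ℂ] C) : Prop :=
  Function.Injective i ∧ Function.Surjective q ∧ ∀ b, q b = 0 ↔ b ∈ Set.range i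

/-- The entrywise application of a *-homomorphism to an infinite matrix. -/
def mapMat {S B C : Type*} [NonUnitalCStarAlgebra B] [NonUnitalCStarAlgebra C]
    (φ : B →⋆ₙₐ[ℂ] C) (m : S → S → B) : S → S → C :=
  fun s t => φ (m s t)

/-! ## The minimal tensor product of a concrete C*-algebra `D ⊆ B(ℓ²(S))` with a C*-algebra `B` -/

section Tensor

variable {S : Type*}

/-- The Hilbert space `ℓ²(S)`. -/
noncomputable abbrev L2 (S : Type*) := lp (fun _ : S => ℂ) 2

/-- The matrix coefficient `⟨δ_s, T δ_t⟩` of an operator on `ℓ²(S)`. -/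
noncomputable def coef (T : L2 S →L[ℂ] L2 S) (s t : S) : ℂ :=
  open Classical in (T (lp.single 2 t (1 : ℂ))) s

/-- The elementary tensor `d ⊗ b` as a matrix over `B`. -/
noncomputable def elemTensor {B : Type*} [NonUnitalCStarAlgebra B]
    (d : L2 S →L[ℂ] L2 S) (b : B) : S → S → B :=
  fun s t => coef d s t • b

/-- The algebraic tensor product `D ⊙ B`. -/
def algTensor (D : Set (L2 S →L[ℂ] L2 S)) (B : Type*) [NonUnitalCStarAlgebra B] :
    Submodule ℂ (S → S → B) :=
  Submodule.span ℂ {m | ∃ d ∈ D, ∃ b : B, m = elemTensor d b}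

/-- The minimal (spatial) tensor product `D ⊗ B`, the closure of `D ⊙ B`. -/
def minTensor (D : Set (L2 S →L[ℂ] L2 S)) (B : Type*) [NonUnitalCStarAlgebra B] :
    Set (S → S → B) :=
  {m | ∀ ε > 0, ∃ z ∈ algTensor D B, MatLE (m - z) ε}

/-- A concrete C*-algebra `D ⊆ B(ℓ²(S))` is exact if `D ⊗ -` preserves short exact sequences of
C*-algebras. -/
def IsExactAlg {S : Type w} (D : Set (L2 S →L[ℂ] L2 S)) : Prop :=
  ∀ (J B C : Type w) [NonUnitalCStarAlgebra J] [NonUnitalCStarAlgebra B]
    [NonUnitalCStarAlgebra C] (i : J →⋆ₙₐ[ℂ] B) (q : B →⋆ₙₐ[ℂ] C), CStarShortExact i q →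
    ShortExact (minTensor D J) (minTensor D B) (minTensor D C) (mapMat i) (mapMat q)

end Tensor

section Top

variable {X : Type u} [Groupoid.{u} X]

/-- The reduced C*-algebra of an étale groupoid `G`, acting on `ℓ²(G)`. -/
noncomputable def redAlg (X : Type u) [Groupoid.{u} X] [TopologicalSpace (Arr X)] :
    NonUnitalStarSubalgebra ℂ (L2 (Arr X) →L[ℂ] L2 (Arr X)) :=
  (NonUnitalStarAlgebra.adjoin ℂ {T : L2 (Arr X) →L[ℂ] L2 (Arr X) |
    ∃ f : Arr X → ℂ, IsCc f ∧ ∀ s t, coef T s t = regMat f s t}).topologicalClosure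

end Top

/-! ## G-C*-algebras and reduced crossed products -/

/-- A `G`-C*-algebra, presented through its fibres and its sections. -/
structure GAlg (X : Type u) [Groupoid.{u} X] [TopologicalSpace X] [TopologicalSpace (Arr X)] where
  /-- the fibre over `x` -/
  fib : X → Type v
  /-- the fibres are C*-algebras -/
  alg : ∀ x, NonUnitalCStarAlgebra (fib x)
  /-- the elements of the `C_0(X)`-algebra, as families of elements of the fibres -/
  sec : Set (∀ x, fib x)
  zero_mem : (fun _ => 0) ∈ sec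
  add_mem : ∀ a ∈ sec, ∀ b ∈ sec, (fun x => a x + b x) ∈ sec
  smul_mem : ∀ (c : ℂ), ∀ a ∈ sec, (fun x => c • a x) ∈ sec
  mul_mem : ∀ a ∈ sec, ∀ b ∈ sec, (fun x => a x * b x) ∈ sec
  star_mem : ∀ a ∈ sec, (fun x => star (a x)) ∈ sec
  /-- the sections are stable under multiplication by functions in `C_c(X)` -/
  cc_smul_mem : ∀ φ : X → ℂ, IsCc φ → ∀ a ∈ sec, (fun x => φ x • a x) ∈ sec
  /-- every element of a fibre is the value of a section -/
  full : ∀ (x : X) (e : fib x), ∃ a ∈ sec, a x = e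
  /-- the norm of a section is upper semicontinuous and vanishes at infinity -/
  vanish : ∀ a ∈ sec, ∀ ε > 0, IsCompact {x | ε ≤ ‖a x‖}
  /-- the set of sections is closed under uniform limits -/
  complete : ∀ a : (∀ x, fib x), (∀ ε > 0, ∃ b ∈ sec, ∀ x, ‖a x - b x‖ ≤ ε) → a ∈ sec
  /-- the action of the groupoid -/
  act : ∀ {x y : X}, (x ⟶ y) → (fib x →⋆ₙₐ[ℂ] fib y)
  act_id : ∀ (x : X) (a : fib x), act (𝟙 x) a = a
  act_comp : ∀ {x y z : X} (f : x ⟶ y) (g : y ⟶ z) (a : fib x), act (f ≫ g) a = act g (act f a)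
  /-- continuity of the action -/
  act_cont : ∀ η : Arr X → ℂ, IsCc η → ∀ a ∈ sec,
    (fun y => ∑ᶠ g : Σ x, (x ⟶ y), η ⟨g.1, y, g.2⟩ • act g.2 (a g.1)) ∈ sec

attribute [instance] GAlg.alg

section Crossed

variable {X : Type u} [Groupoid.{u} X] [TopologicalSpace X] [TopologicalSpace (Arr X)]

/-- Equivariant *-homomorphisms. -/
structure GHom (A B : GAlg.{u, v} X) where
  app : ∀ x, A.fib x →⋆ₙₐ[ℂ] B.fib x
  map_sec : ∀ a ∈ A.sec, (fun x => app x (a x)) ∈ B.sec
  equivariant : ∀ {x y : X} (g : x ⟶ y) (a : A.fib x), app y (A.act g a) = B.act g (app x a)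

/-- The map between the section algebras induced by an equivariant *-homomorphism. -/
def GHom.onSec {A B : GAlg.{u, v} X} (φ : GHom A B) (a : ∀ x, A.fib x) : ∀ x, B.fib x :=
  fun x => φ.app x (a x)

/-- A short exact sequence `0 → I → A → B → 0` of `G`-C*-algebras. -/
def GShortExact {I A B : GAlg.{u, v} X} (ι : GHom I A) (π : GHom A B) : Prop :=
  ShortExact (K := ∀ x, B.fib x) I.sec A.sec B.sec ι.onSec π.onSec

/-- Families, indexed by the units `x`, of matrices over the fibre `A_x` whose rows and columns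
are indexed by `G_x`. -/
abbrev MatFam (A : GAlg.{u, v} X) := ∀ x : X, Fibre x → Fibre x → A.fib x

/-- The norm of the family `m` is at most `ρ`. -/
def FamLE {A : GAlg.{u, v} X} (m : MatFam A) (ρ : ℝ) : Prop :=
  ∀ (x : X) (F : Finset (Fibre x)), matNorm (fun i j : F => m x i j) ≤ ρ

/-- The image under the regular representations of the element `g ↦ η(g) a(r(g))` of
`C_c(G, r^* A)`. -/
noncomputable def genElem (A : GAlg.{u, v} X) (η : Arr X → ℂ) (a : ∀ x, A.fib x) : MatFam A :=
  fun _ g h => A.act (Groupoid.inv g.2) (η (quot g h) • a g.1)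

/-- The image of the algebraic crossed product. -/
def algCrossed (A : GAlg.{u, v} X) : Submodule ℂ (MatFam A) :=
  Submodule.span ℂ {m | ∃ η, IsCc η ∧ ∃ a ∈ A.sec, m = genElem A η a}

/-- The reduced crossed product `A ⋊_r G`, in its faithful regular representation. -/
def crossed (A : GAlg.{u, v} X) : Set (MatFam A) :=
  {m | ∀ ε > 0, ∃ z ∈ algCrossed A, FamLE (m - z) ε}

/-- The map of reduced crossed products induced by an equivariant *-homomorphism. -/
def GHom.onCrossed {A B : GAlg.{u, v} X} (φ : GHom A B) (m : MatFam A) : MatFam B :=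
  fun x g h => φ.app x (m x g h)

/-- KW-exactness: reduced crossed products preserve short exact sequences. -/
def KWExact (X : Type u) [Groupoid.{u} X] [TopologicalSpace X] [TopologicalSpace (Arr X)] :
    Prop :=
  ∀ (I A B : GAlg.{u, v} X) (ι : GHom I A) (π : GHom A B), GShortExact ι π →
    ShortExact (crossed I) (crossed A) (crossed B) ι.onCrossed π.onCrossed

end Crossed

end Pool.Agent.KW
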