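import Pool.Agent.Helper79.KW.Base

/-!
# Operators on `ℓ²(S; H)` and their blocks
-/

open scoped ENNReal

namespace Pool.Agent.KW

variable {S : Type*} {H : Type*} [NormedAddCommGroup H] [InnerProductSpace ℂ H]

/-- the Hilbert space `ℓ²(S; H)` -/
noncomputable abbrev L2H (S H : Type*) [NormedAddCommGroup H] := lp (fun _ : S => H) 2

open Classical in
/-- the inclusion of the `s`-th coordinate -/
noncomputable def inj (s : S) : H →L[ℂ] L2H S H :=
  LinearMap.mkContinuous (lp.lsingle (𝕜 := ℂ) (E := fun _ : S => H) 2 s) 1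
    (fun x => by
      rw [one_mul]
      exact (lp.norm_single (E := fun _ : S => H) (p := 2) (by norm_num) s x).le)

/-- the block of `T` at `(s,t)` -/
noncomputable def blk (T : L2H S H →L[ℂ] L2H S H) (s t : S) : H →L[ℂ] H :=
  (lp.evalCLM ℂ (fun _ : S => H) 2 s) ∘L T ∘L (inj t)

open Classical in
theorem blk_apply (T : L2H S H →L[ℂ] L2H S H) (s t : S) (v : H) :
    blk T s t v = (T (lp.single 2 t v)) s := rfl

end Pool.Agent.KW
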