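import Pool.Agent.Helper79.KW.Core

/-!
# Exactness of C*-algebras and KW-exactness of étale groupoids

The definitions used in the statement of the result on MP_715b63_an.
-/

open CategoryTheory Topology
open Pool.Agent.KW

namespace Pool.Agent.GroupoidExact

universe u v w

/-! ## *-homomorphisms and short exact sequences of C*-algebras -/

section CStar

variable {J B C : Type*} [NonUnitalCStarAlgebra J] [NonUnitalCStarAlgebra B]
  [NonUnitalCStarAlgebra C]

/-- The map `f` between C*-algebras is a *-homomorphism. -/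
structure IsStarHom (f : B → C) : Prop where
  map_add : ∀ a b, f (a + b) = f a + f b
  map_smul : ∀ (c : ℂ) (a : B), f (c • a) = c • f a
  map_mul : ∀ a b, f (a * b) = f a * f b
  map_star : ∀ a, f (star a) = star (f a)

/-- The short exact sequence `0 → J → B → C → 0` of C*-algebras and *-homomorphisms. -/
structure CStarShortExact (i : J → B) (q : B → C) : Prop where
  hom_left : IsStarHom i
  hom_right : IsStarHom q
  injective : Function.Injective i
  surjective : Function.Surjective q
  exact : ∀ b, q b = 0 ↔ b ∈ Set.range i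

end CStar

/-! ## Exactness of a concrete C*-algebra

Let `H` be a Hilbert space with orthonormal basis `(δ_s)_{s ∈ S}`, so `H = ℓ²(S)`, and let
`D ⊆ B(H)`.  For a C*-algebra `B` the spatial tensor product `D ⊗ B` is realised inside the
adjointable operators of the Hilbert module `ℓ²(S) ⊗ B`, that is, by matrices over `B` whose rows
and columns are indexed by `S`; the norm of such a matrix is the supremum of the norms of its
finite square submatrices. -/

section Tensor

variable {S : Type w} {H : Type v} [NormedAddCommGroup H] [InnerProductSpace ℂ H]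

/-- The matrix coefficient `⟨δ_s, T δ_t⟩` of an operator `T`. -/
noncomputable def coef (δ : HilbertBasis S ℂ H) (T : H →L[ℂ] H) (s t : S) : ℂ :=
  inner ℂ (δ s) (T (δ t))

/-- The elementary tensor `d ⊗ b` as a matrix over `B`. -/
noncomputable def elemTensor {B : Type*} [NonUnitalCStarAlgebra B] (δ : HilbertBasis S ℂ H)
    (d : H →L[ℂ] H) (b : B) : S → S → B :=
  fun s t => coef δ d s t • b

/-- The algebraic tensor product `D ⊙ B`: the span of the elementary tensors. -/
def algTensor (δ : HilbertBasis S ℂ H) (D : Set (H →L[ℂ] H)) (B : Type*)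
    [NonUnitalCStarAlgebra B] : Submodule ℂ (S → S → B) :=
  Submodule.span ℂ {m | ∃ d ∈ D, ∃ b : B, m = elemTensor δ d b}

/-- The minimal (spatial) tensor product `D ⊗ B`: the closure of `D ⊙ B`. -/
def minTensor (δ : HilbertBasis S ℂ H) (D : Set (H →L[ℂ] H)) (B : Type*)
    [NonUnitalCStarAlgebra B] : Set (S → S → B) :=
  {m | ∀ ε > 0, ∃ z ∈ algTensor δ D B, MatLE (m - z) ε}

/-- The map `id ⊗ φ`, which applies `φ` to all entries of a matrix. -/
def mapEntries {B C : Type*} (φ : B → C) (m : S → S → B) : S → S → C :=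
  fun s t => φ (m s t)

/-- The sequence `0 → D ⊗ J → D ⊗ B → D ⊗ C → 0` induced by `i : J → B` and `q : B → C` is
exact. -/
def TensorExact (δ : HilbertBasis S ℂ H) (D : Set (H →L[ℂ] H)) {J B C : Type*}
    [NonUnitalCStarAlgebra J] [NonUnitalCStarAlgebra B] [NonUnitalCStarAlgebra C]
    (i : J → B) (q : B → C) : Prop :=
  ShortExact (minTensor δ D J) (minTensor δ D B) (minTensor δ D C) (mapEntries i) (mapEntries q)

/-- The C*-algebra `D` of operators on `H = ℓ²(S)` is exact: `D ⊗ -` preserves short exact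
sequences `0 → J → B → C → 0` of C*-algebras. -/
def IsExactAlg (δ : HilbertBasis S ℂ H) (D : Set (H →L[ℂ] H)) : Prop :=
  ∀ (J B C : Type w) [NonUnitalCStarAlgebra J] [NonUnitalCStarAlgebra B]
    [NonUnitalCStarAlgebra C] (i : J → B) (q : B → C), CStarShortExact i q → TensorExact δ D i q

end Tensor

/-! ## The reduced C*-algebra of a groupoid -/

/-- The reduced C*-algebra `C*_r(G)` of an étale groupoid `G`, acting on `H = ℓ²(G)` (a Hilbert
space with an orthonormal basis `(δ_g)_{g ∈ G}`), the direct sum of the Hilbert spaces `ℓ²(G_x)`: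
the closed *-algebra of operators generated by the image of `C_c(G)` under the direct sum of the
regular representations. -/
noncomputable def redAlg {X : Type u} [Groupoid.{u} X] [TopologicalSpace (Arr X)]
    {H : Type v} [NormedAddCommGroup H] [InnerProductSpace ℂ H] [CompleteSpace H]
    (δ : HilbertBasis (Arr X) ℂ H) : NonUnitalStarSubalgebra ℂ (H →L[ℂ] H) :=
  (NonUnitalStarAlgebra.adjoin ℂ {T : H →L[ℂ] H |
    ∃ f : Arr X → ℂ, IsCc f ∧ ∀ s t, coef δ T s t = regMat f s t}).topologicalClosure

/-! ## G-C*-algebras -/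

section GAlgebras

variable {X : Type u} {A : X → Type v} [∀ x, NonUnitalCStarAlgebra (A x)]

/-- The function `x ↦ ‖a(x)‖`. -/
def fibreNorm (a : ∀ x, A x) (x : X) : ℝ := ‖a x‖

/-- The function `x ↦ ‖a(x) - b(x)‖`. -/
def fibreDist (a b : ∀ x, A x) (x : X) : ℝ := ‖a x - b x‖

/-- The set `Γ` of families of elements of the fibres is a *-algebra (with pointwise operations)
and stable under multiplication by functions in `C_c(X)`. -/
structure IsFamilyAlgebra [TopologicalSpace X] (Γ : Set (∀ x, A x)) : Prop where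
  zero_mem : (fun _ => 0) ∈ Γ
  add_mem : ∀ a ∈ Γ, ∀ b ∈ Γ, (fun x => a x + b x) ∈ Γ
  smul_mem : ∀ (c : ℂ), ∀ a ∈ Γ, (fun x => c • a x) ∈ Γ
  mul_mem : ∀ a ∈ Γ, ∀ b ∈ Γ, (fun x => a x * b x) ∈ Γ
  star_mem : ∀ a ∈ Γ, (fun x => star (a x)) ∈ Γ
  cc_smul_mem : ∀ φ : X → ℂ, IsCc φ → ∀ a ∈ Γ, (fun x => φ x • a x) ∈ Γ

/-- The set `Γ` of families of elements of the fibres `A_x` is a `C_0(X)`-algebra with these
fibres: a *-algebra, stable under multiplication by functions in `C_c(X)`, closed under uniform
limits, with enough elements, and such that the norm of every element is upper semicontinuous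
and vanishes at infinity. -/
structure IsC0Algebra [TopologicalSpace X] (Γ : Set (∀ x, A x)) : Prop where
  alg : IsFamilyAlgebra Γ
  /-- every element of a fibre is the value of an element of `Γ` -/
  full : ∀ (x : X) (e : A x), ∃ a ∈ Γ, a x = e
  /-- the norm of a section is upper semicontinuous and vanishes at infinity -/
  vanish : ∀ a ∈ Γ, ∀ ε > 0, IsCompact {x | ε ≤ fibreNorm a x}
  /-- the set of sections is closed under uniform limits -/
  complete : ∀ a : (∀ x, A x), (∀ ε > 0, ∃ b ∈ Γ, ∀ x, fibreDist a b x ≤ ε) → a ∈ Γ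

/-- The family `y ↦ ∑_{r(g) = y} η(g) α_g(a(s(g)))`. -/
noncomputable def pushforward [Groupoid.{u} X] (α : ∀ {x y : X}, (x ⟶ y) → A x → A y)
    (η : Arr X → ℂ) (a : ∀ x, A x) (y : X) : A y :=
  ∑ᶠ g : Σ x, (x ⟶ y), η ⟨g.1, y, g.2⟩ • α g.2 (a g.1)

/-- A `G`-C*-algebra with fibres `A_x`: a `C_0(X)`-algebra, given by its elements as families of
elements of the fibres (`sec`), and a continuous action (`act`) of the groupoid. -/
structure GAlg {X : Type u} [Groupoid.{u} X] [TopologicalSpace X] [TopologicalSpace (Arr X)]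
    (A : X → Type v) [∀ x, NonUnitalCStarAlgebra (A x)] where
  /-- the elements of the `C_0(X)`-algebra -/
  sec : Set (∀ x, A x)
  isC0Algebra : IsC0Algebra sec
  /-- the action `α_g : A_{s(g)} → A_{r(g)}` of the groupoid -/
  act : ∀ {x y : X}, (x ⟶ y) → A x → A y
  act_hom : ∀ {x y : X} (g : x ⟶ y), IsStarHom (act g)
  act_id : ∀ (x : X) (a : A x), act (𝟙 x) a = a
  act_comp : ∀ {x y z : X} (f : x ⟶ y) (g : y ⟶ z) (a : A x), act (f ≫ g) a = act g (act f a)
  /-- continuity of the action: for `η ∈ C_c(G)` and a section `a`, the family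
  `y ↦ ∑_{r(g) = y} η(g) α_g(a(s(g)))` is a section -/
  act_cont : ∀ η : Arr X → ℂ, IsCc η → ∀ a ∈ sec, pushforward act η a ∈ sec

end GAlgebras

section Crossed

variable {X : Type u} [Groupoid.{u} X] [TopologicalSpace X] [TopologicalSpace (Arr X)]
  {I A B : X → Type v} [∀ x, NonUnitalCStarAlgebra (I x)] [∀ x, NonUnitalCStarAlgebra (A x)]
  [∀ x, NonUnitalCStarAlgebra (B x)]

/-- The map of families of elements of the fibres induced by a family of maps. -/
def mapFam (φ : ∀ x, A x → B x) (a : ∀ x, A x) : ∀ x, B x := fun x => φ x (a x)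

/-- Equivariant *-homomorphisms of `G`-C*-algebras (linear over `C_0(X)`): families of
*-homomorphisms of the fibres which map sections to sections and commute with the actions. -/
structure IsGHom (𝒜 : GAlg A) (ℬ : GAlg B) (φ : ∀ x, A x → B x) : Prop where
  hom : ∀ x, IsStarHom (φ x)
  map_sec : ∀ a ∈ 𝒜.sec, mapFam φ a ∈ ℬ.sec
  equivariant : ∀ {x y : X} (g : x ⟶ y) (a : A x), φ y (𝒜.act g a) = ℬ.act g (φ x a)

/-- A short exact sequence `0 → I → A → B → 0` of `G`-C*-algebras and equivariant
*-homomorphisms. -/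
structure GShortExact (ℐ : GAlg I) (𝒜 : GAlg A) (ℬ : GAlg B) (ι : ∀ x, I x → A x)
    (π : ∀ x, A x → B x) : Prop where
  hom_left : IsGHom ℐ 𝒜 ι
  hom_right : IsGHom 𝒜 ℬ π
  exact : ShortExact ℐ.sec 𝒜.sec ℬ.sec (mapFam ι) (mapFam π)

/-! ## Reduced crossed products -/

/-- Families, indexed by the units `x`, of matrices over the fibre `A_x` whose rows and columns
are indexed by `G_x`. -/
abbrev MatFam (A : X → Type v) := ∀ x : X, Fibre x → Fibre x → A x

/-- The distance of the families `m` and `m'` in norm is at most `ρ`: for every `x` the matrix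
`m_x - m'_x` has norm at most `ρ`. -/
def FamDistLE (m m' : MatFam A) (ρ : ℝ) : Prop :=
  ∀ x : X, MatLE (fun g h => m x g h - m' x g h) ρ

/-- The image under the regular representations of the element `∑_k η_k(g) a_k(r(g))` of
`C_c(G, r^* A)`, where `k` runs from `1` to `n`: the matrix entry at `(g, h)` is
`α_g⁻¹ (∑_k η_k(g h⁻¹) a_k(r(g)))`. -/
noncomputable def regRep (𝒜 : GAlg A) {n : ℕ} (η : Fin n → Arr X → ℂ)
    (a : Fin n → ∀ x, A x) : MatFam A :=
  fun _ g h => 𝒜.act (Groupoid.inv g.2) (∑ k, η k (quot g h) • a k g.1)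

/-- The reduced crossed product `A ⋊_r G`, in its faithful regular representation: the closure of
the image of `C_c(G, r^* A)`. -/
def crossed (𝒜 : GAlg A) : Set (MatFam A) :=
  {m | ∀ ε > 0, ∃ (n : ℕ) (η : Fin n → Arr X → ℂ) (a : Fin n → ∀ x, A x),
    (∀ k, IsCc (η k)) ∧ (∀ k, a k ∈ 𝒜.sec) ∧ FamDistLE m (regRep 𝒜 η a) ε}

/-- The map of reduced crossed products induced by an equivariant *-homomorphism. -/
def mapCrossed (φ : ∀ x, A x → B x) (m : MatFam A) : MatFam B :=
  fun x g h => φ x (m x g h)

/-- The sequence `0 → I ⋊_r G → A ⋊_r G → B ⋊_r G → 0` induced by `ι` and `π` is exact. -/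
def CrossedExact (ℐ : GAlg I) (𝒜 : GAlg A) (ℬ : GAlg B) (ι : ∀ x, I x → A x)
    (π : ∀ x, A x → B x) : Prop :=
  ShortExact (crossed ℐ) (crossed 𝒜) (crossed ℬ) (mapCrossed ι) (mapCrossed π)

end Crossed

/-- KW-exactness of an étale groupoid: if `0 → I → A → B → 0` is a short exact sequence of
`G`-C*-algebras with equivariant maps, then the induced sequence of the reduced crossed products
is exact. -/
def KWExact (X : Type u) [Groupoid.{u} X] [TopologicalSpace X] [TopologicalSpace (Arr X)] :
    Prop :=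
  ∀ (I A B : X → Type v) [∀ x, NonUnitalCStarAlgebra (I x)] [∀ x, NonUnitalCStarAlgebra (A x)]
    [∀ x, NonUnitalCStarAlgebra (B x)] (ℐ : GAlg I) (𝒜 : GAlg A) (ℬ : GAlg B)
    (ι : ∀ x, I x → A x) (π : ∀ x, A x → B x),
    GShortExact ℐ 𝒜 ℬ ι π → CrossedExact ℐ 𝒜 ℬ ι π

end Pool.Agent.GroupoidExact
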